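import Pool.Agent.TH646.CA.Main

set_option autoImplicit false

/-!
# Many even almost prime congruent numbers of both classes modulo 8 in short intervals

Let `3/4 < θ ≤ 1`.  There is `R` such that for all large `X` and both classes `j ∈ {2, 6}` modulo `8`
the interval `[X, X + X ^ θ]` contains at least `X ^ (θ - 1/2) / log ^ 8 X` squarefree congruent
numbers `n ≡ j` modulo `8` with at most `R` prime factors, the odd ones larger than `X ^ (1 / R)`.

So up to `X` there are at least `X ^ (1/2) / log ^ 8 X` such numbers in each class; the interesting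
class is `2`, in which the corresponding elliptic curves have rank at least two (if the rank has the
parity of the root number).  The starting library has `X ^ (1/12)` such numbers, in the intervals
with `θ > 2/3`.

Source: `Pool.Agent.TH646.CA` of the starting library, never handed in.
-/

namespace Pool.Agent.Results.MP_f126a2_nt.ManyEvenAlmostPrimes

/-- `n` is the area of a right triangle with rational sides -/
def IsCongruent (n : ℕ) : Prop :=
  ∃ a b c : ℚ, 0 < a ∧ 0 < b ∧ 0 < c ∧ a ^ 2 + b ^ 2 = c ^ 2 ∧ (n : ℚ) = a * b / 2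

/-- `n` has at most `R` prime factors, all the odd ones larger than `X ^ (1 / R)` -/
def AlmostPrime (R : ℕ) (X : ℝ) (n : ℕ) : Prop :=
  n.primeFactors.card ≤ R ∧ ∀ p : ℕ, p.Prime → p ∣ n → p = 2 ∨ X ^ (1 / (R : ℝ)) < (p : ℝ)

/-- **Many even almost prime congruent numbers in short intervals.** -/
theorem result (θ : ℝ) (hθ : 3 / 4 < θ) (hθ1 : θ ≤ 1) :
    ∃ R : ℕ, 0 < R ∧ ∃ X₀ : ℝ, ∀ X : ℝ, X₀ ≤ X → ∀ j : ℕ, (j = 2 ∨ j = 6) →
      X ^ (θ - 1 / 2) / Real.log X ^ 8 ≤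
        ({n : ℕ | X ≤ n ∧ (n : ℝ) ≤ X + X ^ θ ∧ n % 8 = j ∧ Squarefree n ∧ IsCongruent n ∧
          AlmostPrime R X n}.ncard : ℝ) := by
  obtain ⟨R, hR, X₀, h⟩ := Pool.Agent.TH646.CA.main θ hθ hθ1
  refine ⟨R, hR, X₀, fun X hX j hj => ?_⟩
  obtain ⟨e, he⟩ : ∃ e : ℤ, Pool.Agent.TH646.CA.Fam 2 18 3 e (j : ℤ) := by
    unfold Pool.Agent.TH646.CA.Fam
    rcases hj with rfl | rfl
    · exact ⟨1, by norm_num⟩
    · exact ⟨11, by norm_num⟩
  refine (h X hX 2 18 3 e j he).trans ?_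
  have hfin : {n : ℕ | X ≤ n ∧ (n : ℝ) ≤ X + X ^ θ ∧ n % 8 = j ∧ Squarefree n ∧ IsCongruent n ∧
      AlmostPrime R X n}.Finite := by
    apply (Set.finite_Iic ⌊X + X ^ θ⌋₊).subset
    intro n hn
    exact Nat.le_floor hn.2.1
  have hsub := Set.ncard_le_ncard (s := {n : ℕ | X ≤ n ∧ (n : ℝ) ≤ X + X ^ θ ∧
      (n : ℤ) % 8 = (j : ℤ) ∧ Squarefree n ∧ Pool.Agent.TH646.CA.Cong n ∧ n.primeFactors.card ≤ R ∧
      ∀ p : ℕ, p.Prime → p ∣ n → p = 2 ∨ X ^ (1 / (R : ℝ)) < p}) (t := {n : ℕ | X ≤ n ∧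
      (n : ℝ) ≤ X + X ^ θ ∧ n % 8 = j ∧ Squarefree n ∧ IsCongruent n ∧ AlmostPrime R X n}) (by
    rintro n ⟨h1, h2, h3, h4, ⟨a, b, c, ha, hb, hc, h5, h6⟩, h7, h8⟩
    have h9 : n % 8 = j := by omega
    exact ⟨h1, h2, h9, h4, ⟨a, b, c, ha, hb, hc, h5, h6.symm⟩, h7, h8⟩) hfin
  exact_mod_cast hsub

end Pool.Agent.Results.MP_f126a2_nt.ManyEvenAlmostPrimes
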