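import Mathlib
import Pool.Agent.Y859.SI.Fin
import Pool.Agent.V11287.MI.Nest

set_option autoImplicit false

/-!
# A theorem of Mills type for even congruent numbers

Let `c > 3`.  There is `R` such that for all real exponents `e_0 > 0`, `e_(n+1) ≥ c e_n` and all
prescribed classes of even squarefree numbers modulo `8 M_n` (`M_n` even, up to a power), every interval
contains uncountably many `A` for which the integer parts of `A ^ (e_n)`, `n ≥ n₀`, are squarefree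
congruent numbers of these classes with at most `R` prime factors outside the common divisor with the
modulus.  In particular the classes `2, 6, 10, 14` modulo `16` occur, in any prescribed order.

Proof.  Nested intervals (`Pool.Agent.V11287.MI.mills`) and the almost prime congruent numbers of the
intervals `[X, X + X ^ θ]`, `θ > 2/3` (theorem `Pool.Agent.Y859.SI.main` of the starting library).
-/

namespace Pool.Agent.Results.MP_f126a2_nt.MillsConstants

open Filter Topology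

/-- `n` is the area of a right triangle with rational sides. -/
def IsCongruent (n : ℕ) : Prop :=
  ∃ a b c : ℚ, 0 < a ∧ 0 < b ∧ 0 < c ∧ a ^ 2 + b ^ 2 = c ^ 2 ∧ (n : ℚ) = a * b / 2

/-- `N` is an even squarefree congruent number, `N ≡ s` modulo `8 M` and `N = gcd (s, M) m`, where `m`
has at most `R` prime factors (with multiplicity), all of them larger than `N ^ (1 / R)`. -/
def Nice (R s M N : ℕ) : Prop :=
  Even N ∧ Squarefree N ∧ N ≡ s [MOD 8 * M] ∧ IsCongruent N ∧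
    ∃ m, N = Nat.gcd s M * m ∧ m.primeFactorsList.length ≤ R ∧
      ∀ p : ℕ, p.Prime → p ∣ m → (N : ℝ) ^ (1 / (R : ℝ)) < (p : ℝ)

/-- the elements of short intervals -/
theorem short (θ : ℝ) (hθ : 2 / 3 < θ) (hθ1 : θ ≤ 17 / 24) : ∃ R : ℕ, ∃ X₁ : ℝ, ∀ X : ℝ,
    X₁ ≤ X → ∀ s M : ℕ, Even s ∧ Squarefree s → 0 < M ∧ Even M →
      (M : ℝ) ≤ X ^ ((θ - 2 / 3) / 14) →
      ∃ N : ℕ, Nice R s M N ∧ X ≤ (N : ℝ) ∧ (N : ℝ) ≤ X + X ^ θ := by
  obtain ⟨R, hR, X₀, h⟩ := Pool.Agent.Y859.SI.main θ hθ hθ1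
  refine ⟨2 * R, max X₀ 2, ?_⟩
  intro X hX s M hs hM hMX
  have hX2 : 2 ≤ X := (le_max_right _ _).trans hX
  have h1 := h X ((le_max_left _ _).trans hX) M hM.1 hMX s hs.2
  have h2 : 0 < X ^ (1 / 12 : ℝ) := Real.rpow_pos_of_pos (by linarith) _
  have h3 := h2.trans_le h1
  have h4 : ({n : ℕ | X ≤ n ∧ (n : ℝ) ≤ X + X ^ θ ∧ Squarefree n ∧
        n ≡ s [MOD 8 * M] ∧ Pool.Agent.Y859.SI.Cong n ∧
        ∃ m, n = Nat.gcd s M * m ∧ Pool.Agent.Y859.SI.Few R X m}).ncard ≠ 0 := by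
    intro h0
    rw [h0] at h3
    simp at h3
  obtain ⟨N, g1, g2, g3, g4, g5, m, g6, g7, g8⟩ := Set.nonempty_of_ncard_ne_zero h4
  have heven : Even N := by
    have h9 : N ≡ s [MOD 2] := g4.of_dvd ⟨4 * M, by ring⟩
    have h10 : N % 2 = s % 2 := h9
    have h11 := Nat.even_iff.1 hs.1
    rw [Nat.even_iff]
    omega
  refine ⟨N, ⟨heven, g3, g4, g5, m, g6, g7.trans (by omega), ?_⟩, g1, g2⟩
  intro p hp hpm
  have hp2 : p ≠ 2 := by
    rintro rfl
    have h12 : 2 ∣ Nat.gcd s M := Nat.dvd_gcd hs.1.two_dvd hM.2.two_dvd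
    have h13 : 2 * 2 ∣ N := by
      rw [g6]
      exact mul_dvd_mul h12 hpm
    have h14 := Nat.isUnit_iff.1 (g3 2 h13)
    omega
  refine lt_of_le_of_lt ?_ (g8 p hp hp2 hpm)
  have e1 : X ^ θ ≤ X := by
    calc X ^ θ ≤ X ^ (1 : ℝ) := Real.rpow_le_rpow_of_exponent_le (by linarith) (by linarith)
      _ = X := Real.rpow_one X
  have e2 : (N : ℝ) ≤ X ^ (2 : ℝ) := by
    rw [Real.rpow_two]
    nlinarith
  have hR0 : (0 : ℝ) < R := by exact_mod_cast hR
  calc (N : ℝ) ^ (1 / ((2 * R : ℕ) : ℝ)) ≤ (X ^ (2 : ℝ)) ^ (1 / ((2 * R : ℕ) : ℝ)) :=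
        Real.rpow_le_rpow (Nat.cast_nonneg N) e2 (by positivity)
    _ = X ^ (1 / (R : ℝ)) := by
        rw [← Real.rpow_mul (by linarith)]
        congr 1
        push_cast
        field_simp

/-- **A theorem of Mills type for even congruent numbers.** -/
theorem result (c : ℝ) (hc : 3 < c) : ∃ R : ℕ, ∃ δ : ℝ, 0 < δ ∧ ∃ X₀ : ℝ,
    ∀ e : ℕ → ℝ, 0 < e 0 → (∀ n, c * e n ≤ e (n + 1)) →
    ∀ s M : ℕ → ℕ, (∀ n, Even (s n) ∧ Squarefree (s n)) → (∀ n, 0 < M n ∧ Even (M n)) →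
    ∀ a b : ℝ, 1 < a → a < b →
      ((∀ n, (M n : ℝ) ≤ a ^ (δ * e n)) → X₀ ≤ a ^ e 0 → 2 * a ^ e 0 ≤ b ^ e 0 →
        ¬ {A : ℝ | a < A ∧ A < b ∧ ∀ n, Nice R (s n) (M n) ⌊A ^ e n⌋₊}.Countable) ∧
      ((∀ᶠ n in atTop, (M n : ℝ) ≤ a ^ (δ * e n)) →
        ∃ n₀, ¬ {A : ℝ | a < A ∧ A < b ∧
          ∀ n, n₀ ≤ n → Nice R (s n) (M n) ⌊A ^ e n⌋₊}.Countable) := by
  obtain ⟨θ, hθd⟩ : ∃ θ : ℝ, θ = min (17 / 24) ((2 / 3 + (1 - 1 / c)) / 2) := ⟨_, rfl⟩
  have hc0 : 0 < c := by linarith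
  have hcinv : 1 / c < 1 / 3 := one_div_lt_one_div_of_lt (by norm_num) hc
  have hθ : 2 / 3 < θ := by
    rw [hθd, lt_min_iff]
    constructor
    · norm_num
    · linarith
  have hθ1 : θ ≤ 17 / 24 := by
    rw [hθd]
    exact min_le_left _ _
  have hθ2 : θ < 1 - 1 / c := by
    have : θ ≤ (2 / 3 + (1 - 1 / c)) / 2 := by
      rw [hθd]
      exact min_le_right _ _
    linarith
  obtain ⟨η, hηd⟩ : ∃ η : ℝ, η = c * (1 - θ) - 1 := ⟨_, rfl⟩
  have hη : 0 < η := by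
    have h1 : 1 / c < 1 - θ := by linarith
    have h2 : c * (1 / c) < c * (1 - θ) := mul_lt_mul_of_pos_left h1 hc0
    rw [mul_one_div_cancel hc0.ne'] at h2
    linarith
  obtain ⟨R, X₁, hshort⟩ := short θ hθ hθ1
  obtain ⟨δ, hδd⟩ : ∃ δ : ℝ, δ = (θ - 2 / 3) / 14 := ⟨_, rfl⟩
  have hδ : 0 < δ := by
    rw [hδd]
    linarith
  rw [← hδd] at hshort
  obtain ⟨X₀, hX₀d⟩ : ∃ X₀ : ℝ, X₀ = max X₁ (max (16 ^ (1 / η)) (16 ^ (1 / (1 - θ)))) := ⟨_, rfl⟩
  have hX1 : X₁ ≤ X₀ := by rw [hX₀d]; exact le_max_left _ _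
  have hX2 : (16 : ℝ) ^ (1 / η) ≤ X₀ := by
    rw [hX₀d]; exact (le_max_left _ _).trans (le_max_right _ _)
  have hX3 : (16 : ℝ) ^ (1 / (1 - θ)) ≤ X₀ := by
    rw [hX₀d]; exact (le_max_right _ _).trans (le_max_right _ _)
  have part1 : ∀ e : ℕ → ℝ, 0 < e 0 → (∀ n, c * e n ≤ e (n + 1)) →
      ∀ s M : ℕ → ℕ, (∀ n, Even (s n) ∧ Squarefree (s n)) → (∀ n, 0 < M n ∧ Even (M n)) →
    ∀ a b : ℝ, 1 < a → a < b →
      (∀ n, (M n : ℝ) ≤ a ^ (δ * e n)) → X₀ ≤ a ^ e 0 → 2 * a ^ e 0 ≤ b ^ e 0 →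
        ¬ {A : ℝ | a < A ∧ A < b ∧ ∀ n, Nice R (s n) (M n) ⌊A ^ e n⌋₊}.Countable := by
    intro e he0 he s M hs hM a b ha hab hMa hXa hba
    have hepos : ∀ n, 0 < e n := by
      intro n
      induction n with
      | zero => exact he0
      | succ n ih => exact lt_of_lt_of_le (by positivity) (he n)
    have hemono : Monotone e := monotone_nat_of_le_succ fun n => by
      have := hepos n
      have := he n
      nlinarith
    have ha0 : 0 < a := by linarith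
    refine Pool.Agent.V11287.MI.mills (θ := θ) (c := c) (η := η) (by linarith) (by linarith) hη
      (by linarith) e he0 he (fun n => {N | Nice R (s n) (M n) N}) ha hab (hX2.trans hXa) ?_ ?_
    · have hB : (16 : ℝ) ^ (1 / (1 - θ)) ≤ b ^ e 0 := by
        have h1 : 0 < a ^ e 0 := Real.rpow_pos_of_pos ha0 _
        linarith [hX3.trans hXa]
      have hB0 : 0 < b ^ e 0 := Real.rpow_pos_of_pos (by linarith) _
      have h1 : (16 : ℝ) ≤ (b ^ e 0) ^ (1 - θ) := by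
        have h2 : 0 < 1 - θ := by linarith
        calc (16 : ℝ) = ((16 : ℝ) ^ (1 / (1 - θ))) ^ (1 - θ) := by
              rw [← Real.rpow_mul (by norm_num), one_div, inv_mul_cancel₀ h2.ne', Real.rpow_one]
          _ ≤ (b ^ e 0) ^ (1 - θ) := Real.rpow_le_rpow (by positivity) hB h2.le
      have h3 : b ^ e 0 = (b ^ e 0) ^ θ * (b ^ e 0) ^ (1 - θ) := by
        rw [← Real.rpow_add hB0]
        have : θ + (1 - θ) = 1 := by ring
        rw [this, Real.rpow_one]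
      have h4 : 0 < (b ^ e 0) ^ θ := Real.rpow_pos_of_pos hB0 _
      nlinarith
    · intro n X hX
      have h1 : X₁ ≤ X := by
        calc X₁ ≤ X₀ := hX1
          _ ≤ a ^ e 0 := hXa
          _ ≤ a ^ e n := Real.rpow_le_rpow_of_exponent_le ha.le (hemono (Nat.zero_le n))
          _ ≤ X := hX
      have h2 : (M n : ℝ) ≤ X ^ δ := by
        calc (M n : ℝ) ≤ a ^ (δ * e n) := hMa n
          _ = (a ^ e n) ^ δ := by rw [← Real.rpow_mul ha0.le, mul_comm]
          _ ≤ X ^ δ := Real.rpow_le_rpow (Real.rpow_nonneg ha0.le _) hX hδ.le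
      obtain ⟨N, g1, g2, g3⟩ := hshort X h1 (s n) (M n) (hs n) (hM n) h2
      exact ⟨N, g1, g2, g3⟩
  refine ⟨R, δ, hδ, X₀, ?_⟩
  intro e he0 he s M hs hM a b ha hab
  refine ⟨part1 e he0 he s M hs hM a b ha hab, ?_⟩
  intro hMa
  have hepos : ∀ n, 0 < e n := by
    intro n
    induction n with
    | zero => exact he0
    | succ n ih => exact lt_of_lt_of_le (by positivity) (he n)
  have hpow : ∀ n, e 0 * c ^ n ≤ e n := by
    intro n
    induction n with
    | zero => simp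
    | succ n ih =>
      calc e 0 * c ^ (n + 1) = c * (e 0 * c ^ n) := by ring
        _ ≤ c * e n := mul_le_mul_of_nonneg_left ih hc0.le
        _ ≤ e (n + 1) := he n
  have hetop : Tendsto e atTop atTop := by
    refine tendsto_atTop_mono hpow ?_
    exact (tendsto_pow_atTop_atTop_of_one_lt (by linarith)).const_mul_atTop he0
  have t1 : Tendsto (fun n => a ^ e n) atTop atTop :=
    (tendsto_rpow_atTop_of_base_gt_one a ha).comp hetop
  have t2 : Tendsto (fun n => (b / a) ^ e n) atTop atTop :=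
    (tendsto_rpow_atTop_of_base_gt_one (b / a) ((one_lt_div (by linarith)).2 hab)).comp hetop
  obtain ⟨n₀, hn₀⟩ := eventually_atTop.1 (hMa.and ((t1.eventually_ge_atTop X₀).and
    (t2.eventually_ge_atTop 2)))
  refine ⟨n₀, fun hcount => ?_⟩
  obtain ⟨g1, g2, g3⟩ := hn₀ n₀ le_rfl
  refine part1 (fun n => e (n + n₀)) ?_ ?_ (fun n => s (n + n₀)) (fun n => M (n + n₀))
    (fun n => hs _) (fun n => hM _) a b ha hab (fun n => (hn₀ (n + n₀) (by omega)).1) ?_ ?_ ?_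
  · simpa using hepos n₀
  · intro n
    have := he (n + n₀)
    have h2 : n + n₀ + 1 = n + 1 + n₀ := by ring
    rw [h2] at this
    exact this
  · simpa using g2
  · simp only [zero_add]
    rw [Real.div_rpow (by linarith) (by linarith), le_div_iff₀ (Real.rpow_pos_of_pos
      (by linarith) _)] at g3
    exact g3
  · refine hcount.mono ?_
    rintro A ⟨h1, h2, h3⟩
    refine ⟨h1, h2, fun n hn => ?_⟩
    obtain ⟨k, rfl⟩ := Nat.exists_eq_add_of_le' hn
    exact h3 k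

end Pool.Agent.Results.MP_f126a2_nt.MillsConstants
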